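import Pool.Agent.L7h61.CL.Stm

/-!
# Project TM (owner helper61, problem MP_3eff7f_gt): approximate selections and extensions
-/

set_option autoImplicit false

open Set Topology

namespace Pool.Agent.L7h89.TM

/-- an upper semicontinuous compact family of nonempty convex sets has approximate continuous
selections -/
theorem approx_sel {W E : Type} [MetricSpace W] [CompactSpace W] [NormedAddCommGroup E]
    [NormedSpace ℝ E] (J O : Set (W × E)) (hJ : IsCompact J) (hO : IsOpen O) (hJO : J ⊆ O)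
    (hne : ∀ w, ∃ v, (w, v) ∈ J) (hcv : ∀ w, Convex ℝ {v | (w, v) ∈ J}) :
    ∃ s : C(W, E), ∀ w, (w, s w) ∈ O := by
  obtain ⟨ε, hε, hεO⟩ := hJ.exists_thickening_subset_open hO hJO
  let c : W → Set W := fun w₀ =>
    (Prod.fst '' (J ∩ {p | p.2 ∉ Metric.thickening ε {v | (w₀, v) ∈ J}}))ᶜ ∩ Metric.ball w₀ ε
  have hc₁ : ∀ w₀, IsOpen (c w₀) := by
    intro w₀
    refine IsOpen.inter ?_ Metric.isOpen_ball
    rw [isOpen_compl_iff]
    refine IsCompact.isClosed (IsCompact.image (hJ.inter_right ?_) continuous_fst)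
    exact (Metric.isOpen_thickening.isClosed_compl).preimage continuous_snd
  have hc₂ : (univ : Set W) ⊆ ⋃ i, c i := by
    intro w _
    refine mem_iUnion.2 ⟨w, ?_, Metric.mem_ball_self hε⟩
    rintro ⟨⟨w', v⟩, ⟨h1, h2⟩, rfl⟩
    exact h2 (Metric.self_subset_thickening hε _ h1)
  obtain ⟨η, hη, h⟩ := lebesgue_number_lemma_of_metric isCompact_univ hc₁ hc₂
  let t : W → Set E := fun w => convexHull ℝ {v | ∃ w', dist w' w < η ∧ (w', v) ∈ J}
  obtain ⟨s, hs⟩ := exists_continuous_forall_mem_convex_of_local_const (t := t)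
    (fun w => convex_convexHull ℝ _) (fun w => by
      obtain ⟨v, hv⟩ := hne w
      refine ⟨v, ?_⟩
      filter_upwards [Metric.ball_mem_nhds w hη] with y hy
      exact subset_convexHull ℝ _ ⟨w, by rw [dist_comm]; exact hy, hv⟩)
  refine ⟨s, fun w => hεO ?_⟩
  obtain ⟨w₀, hw₀⟩ := h w (mem_univ _)
  have h1 : s w ∈ Metric.thickening ε {v | (w₀, v) ∈ J} := by
    have h2 : t w ⊆ Metric.thickening ε {v | (w₀, v) ∈ J} := by
      refine convexHull_min ?_ ((hcv w₀).thickening ε)
      rintro v ⟨w', hw', hv⟩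
      by_contra hcon
      exact (hw₀ (Metric.mem_ball.2 hw')).1 ⟨(w', v), ⟨hv, hcon⟩, rfl⟩
    exact h2 (hs w)
  obtain ⟨v, hv, hd⟩ := Metric.mem_thickening_iff.1 h1
  refine Metric.mem_thickening_iff.2 ⟨(w₀, v), hv, ?_⟩
  rw [Prod.dist_eq]
  exact max_lt (hw₀ (Metric.mem_ball_self hη)).2 hd

/-- a map which is constant on the fibres of `π` extends -/
theorem ext_lemma {Z V : Type} [TopologicalSpace Z] [CompactSpace Z] [MetricSpace V] {N : ℕ}
    (π : Z → V) (hπ : Continuous π) (κ : Z × unitInterval → (Fin N → ℝ)) (hκ : Continuous κ)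
    (hfib : ∀ z z', π z = π z' → ∀ σ, κ (z, σ) = κ (z', σ)) :
    ∃ G : C(V × unitInterval, Fin N → ℝ), ∀ z σ, G (π z, σ) = κ (z, σ) := by
  let P : Z × unitInterval → V × unitInterval := fun q => (π q.1, q.2)
  have hP : Continuous P := (hπ.comp continuous_fst).prodMk continuous_snd
  let P' : Z × unitInterval → range P := rangeFactorization P
  have hP' : Continuous P' := hP.subtype_mk _
  have hsurj : Function.Surjective P' := rangeFactorization_surjective
  have hq : IsQuotientMap P' := hP'.isClosedMap.isQuotientMap hP' hsurj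
  choose r hr using hsurj
  let g : range P → (Fin N → ℝ) := fun v => κ (r v)
  have hg : g ∘ P' = κ := by
    funext q
    have h1 : P (r (P' q)) = P q := congrArg Subtype.val (hr (P' q))
    have h2 : π (r (P' q)).1 = π q.1 := congrArg Prod.fst h1
    have h3 : (r (P' q)).2 = q.2 := congrArg (fun v : V × unitInterval => v.2) h1
    show κ (r (P' q)) = κ q
    have h4 := hfib _ _ h2 q.2
    rw [← h3] at h4
    have h5 : ((r (P' q)).1, (r (P' q)).2) = r (P' q) := rfl
    rw [h5, h3] at h4
    exact h4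
  have hgc : Continuous g := by
    rw [hq.continuous_iff, hg]
    exact hκ
  have hcl : IsClosed (range P) := (isCompact_range hP).isClosed
  obtain ⟨G, hG⟩ := ContinuousMap.exists_restrict_eq hcl (⟨g, hgc⟩ : C(range P, Fin N → ℝ))
  refine ⟨G, fun z σ => ?_⟩
  have h1 := congrArg (fun F : C(range P, Fin N → ℝ) => F (P' (z, σ))) hG
  exact h1.trans (congrFun hg (z, σ))

end Pool.Agent.L7h89.TM
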