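import Pool.Agent.L7h89.TM.Sel

/-!
# Project TM (owner helper61, problem MP_3eff7f_gt): PART C, `S_SOFT`
-/

set_option autoImplicit false

open Set Topology

noncomputable section

namespace Pool.Agent.L7h89.TM

open Pool.Agent.L7h61.CL Pool.Agent.Y489.GE

section

variable {X W : Type} [MetricSpace X] [MetricSpace W]

/-- the compact space of all `(w, α, β, l)` -/
def ZZ (S : Set (W × (ℝ → X))) : Set (W × (ℝ → X) × (ℝ → X) × unitInterval) :=
  {z | (z.1, z.2.1) ∈ S ∧ (z.1, z.2.2.1) ∈ S}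

theorem ZZ_closed {S : Set (W × (ℝ → X))} (hS : IsClosed S) : IsClosed (ZZ S) := by
  refine IsClosed.inter ?_ ?_
  · exact hS.preimage (f := fun z : W × (ℝ → X) × (ℝ → X) × unitInterval => (z.1, z.2.1))
      (by fun_prop)
  · exact hS.preimage (f := fun z : W × (ℝ → X) × (ℝ → X) × unitInterval => (z.1, z.2.2.1))
      (by fun_prop)

theorem curve_cont {S : Set (W × (ℝ → X))} {f g : W → X} {L : ℝ}
    (htrk : ∀ z ∈ S, Trk z.2 (f z.1) (g z.1) L) {N : ℕ} {e : X → (Fin N → ℝ)}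
    (he : Continuous e) :
    Continuous (fun q : S × unitInterval => e (q.1.1.2 (L * (q.2 : ℝ)))) :=
  he.comp (eval_cont (F := fun q : S × unitInterval => q.1.1.2)
    (τ := fun q : S × unitInterval => L * (q.2 : ℝ)) (by fun_prop)
    (fun q s t => (htrk q.1.1 q.1.2).1 s t) (by fun_prop))

end

theorem s_SOFT : S_SOFT := by
  classical
  intro X _ _ hX W _ _ f g L S K hL hS hne htwo htrk hK
  obtain ⟨N, e, U, ρ, he, hU, heU, hρ, hρe⟩ := hX
  have hei : Function.Injective e := fun x y h => by rw [← hρe x, ← hρe y, h]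
  -- two curves
  have hab : ∀ w, ∃ a b, (w, a) ∈ S ∧ (w, b) ∈ S ∧ ∀ γ, (w, γ) ∈ S → γ = a ∨ γ = b := by
    intro w
    obtain ⟨a, ha⟩ := hne w
    by_cases h : ∀ γ, (w, γ) ∈ S → γ = a
    · exact ⟨a, a, ha, ha, fun γ hγ => Or.inl (h γ hγ)⟩
    · push Not at h
      obtain ⟨b, hb, hba⟩ := h
      refine ⟨a, b, ha, hb, fun γ hγ => ?_⟩
      rcases htwo w a b γ ha hb hγ with h | h | h
      · exact absurd h.symm hba
      · exact Or.inl h.symm
      · exact Or.inr h.symm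
  choose a b ha hb hab using hab
  -- the curves in the Euclidean space
  have hF := curve_cont (f := fun w => f w) (g := fun w => g w) htrk he
  let eh : C(S, C(unitInterval, Fin N → ℝ)) := ContinuousMap.curry ⟨_, hF⟩
  have heh : ∀ (z : S) (σ : unitInterval), eh z σ = e (z.1.2 (L * (σ : ℝ))) := fun _ _ => rfl
  have hinj : ∀ (w : W) (α β : ℝ → X) (hα : (w, α) ∈ S) (hβ : (w, β) ∈ S),
      eh ⟨(w, α), hα⟩ = eh ⟨(w, β), hβ⟩ → α = β := by
    intro w α β hα hβ h
    have h1 : Trk α (f w) (g w) L := htrk _ hα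
    have h2 : Trk β (f w) (g w) L := htrk _ hβ
    funext t
    rcases le_total t 0 with ht | ht
    · rw [h1.2.1 t ht, h2.2.1 t ht]
    rcases le_total L t with ht' | ht'
    · rw [h1.2.2 t ht', h2.2.2 t ht']
    have hσ : t / L ∈ unitInterval := ⟨by positivity, div_le_one_of_le₀ ht' hL.le⟩
    have h3 := congrArg (fun F : C(unitInterval, Fin N → ℝ) => F ⟨t / L, hσ⟩) h
    have h4 : e (α (L * (t / L))) = e (β (L * (t / L))) := h3
    rw [mul_div_cancel₀ _ hL.ne'] at h4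
    exact hei h4
  have : CompactSpace (ZZ S) := isCompact_iff_compactSpace.1 (ZZ_closed hS).isCompact
  let p₁ : ZZ S → S := fun z => ⟨(z.1.1, z.1.2.1), z.2.1⟩
  let p₂ : ZZ S → S := fun z => ⟨(z.1.1, z.1.2.2.1), z.2.2⟩
  have hp₁ : Continuous p₁ := by
    refine Continuous.subtype_mk ?_ _
    fun_prop
  have hp₂ : Continuous p₂ := by
    refine Continuous.subtype_mk ?_ _
    fun_prop
  let π : ZZ S → W × C(unitInterval, Fin N → ℝ) := fun z =>
    (z.1.1, (1 - (z.1.2.2.2 : ℝ)) • eh (p₁ z) + (z.1.2.2.2 : ℝ) • eh (p₂ z))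
  have hπ : Continuous π := by
    have h1 : Continuous fun z : ZZ S => eh (p₁ z) := eh.continuous.comp hp₁
    have h2 : Continuous fun z : ZZ S => eh (p₂ z) := eh.continuous.comp hp₂
    have h3 : Continuous fun z : ZZ S => (z.1.2.2.2 : ℝ) := by fun_prop
    have h4 : Continuous fun z : ZZ S => z.1.1 := by fun_prop
    exact h4.prodMk (((continuous_const.sub h3).smul h1).add (h3.smul h2))
  let κ : ZZ S × unitInterval → (Fin N → ℝ) := fun q =>
    e (K q.1.1.1 q.1.1.2.1 q.1.1.2.2.1 q.1.1.2.2.2 q.2)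
  have hκ : Continuous κ := by
    refine he.comp (hK.cont.comp_continuous (f := fun q : ZZ S × unitInterval =>
      (q.1.1.1, q.1.1.2.1, q.1.1.2.2.1, (q.1.1.2.2.2 : ℝ), (q.2 : ℝ))) (by fun_prop) ?_)
    intro q
    exact ⟨q.1.2.1, q.1.2.2, q.1.1.2.2.2.2, q.2.2⟩
  let ea : W → C(unitInterval, Fin N → ℝ) := fun w => eh ⟨(w, a w), ha w⟩
  let eb : W → C(unitInterval, Fin N → ℝ) := fun w => eh ⟨(w, b w), hb w⟩
  -- the normal form
  have key : ∀ z : ZZ S, ∃ l ∈ Icc (0 : ℝ) 1,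
      (π z).2 = (1 - l) • ea z.1.1 + l • eb z.1.1 ∧
      ∀ σ ∈ Icc (0 : ℝ) 1, K z.1.1 z.1.2.1 z.1.2.2.1 z.1.2.2.2 σ =
        K z.1.1 (a z.1.1) (b z.1.1) l σ := by
    rintro ⟨⟨w, α, β, ⟨l, hl⟩⟩, h1, h2⟩
    have e0 : (0 : ℝ) ∈ Icc (0 : ℝ) 1 := ⟨le_rfl, zero_le_one⟩
    have e1 : (1 : ℝ) ∈ Icc (0 : ℝ) 1 := ⟨zero_le_one, le_rfl⟩
    have hl' : (1 - l) ∈ Icc (0 : ℝ) 1 := ⟨by linarith [hl.2], by linarith [hl.1]⟩
    dsimp only at h1 h2 ⊢
    change (w, α) ∈ S at h1
    change (w, β) ∈ S at h2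
    show ∃ l' ∈ Icc (0 : ℝ) 1, (1 - l) • eh ⟨(w, α), h1⟩ + l • eh ⟨(w, β), h2⟩ =
      (1 - l') • eh ⟨(w, a w), ha w⟩ + l' • eh ⟨(w, b w), hb w⟩ ∧ _
    rcases hab w α h1 with rfl | rfl <;> rcases hab w β h2 with rfl | rfl
    · refine ⟨0, e0, ?_, fun σ hσ => ?_⟩
      · rw [← add_smul]
        simp
      · rw [hK.diag w _ h1 l hl σ hσ, hK.zero w _ _ (ha w) (hb w) σ hσ]
    · exact ⟨l, hl, rfl, fun σ _ => rfl⟩
    · refine ⟨1 - l, hl', ?_, fun σ hσ => ?_⟩
      · rw [sub_sub_cancel, add_comm]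
      · exact hK.swap w _ _ (hb w) (ha w) l hl σ hσ
    · refine ⟨1, e1, ?_, fun σ hσ => ?_⟩
      · rw [← add_smul]
        simp
      · have h3 := hK.swap w _ _ (hb w) (ha w) 0 e0 σ hσ
        rw [sub_zero] at h3
        rw [hK.diag w _ h1 l hl σ hσ, ← h3, hK.zero w _ _ (hb w) (ha w) σ hσ]
  have hfib : ∀ z z', π z = π z' → ∀ σ, κ (z, σ) = κ (z', σ) := by
    intro z z' hzz σ
    obtain ⟨l, hl, h1, h2⟩ := key z
    obtain ⟨l', hl', h1', h2'⟩ := key z'
    have hw : z.1.1 = z'.1.1 :=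
      congrArg (fun v : W × C(unitInterval, Fin N → ℝ) => v.1) hzz
    have hv : (π z).2 = (π z').2 := congrArg (fun v => v.2) hzz
    show e (K z.1.1 z.1.2.1 z.1.2.2.1 z.1.2.2.2 σ) = e (K z'.1.1 z'.1.2.1 z'.1.2.2.1 z'.1.2.2.2 σ)
    rw [h2 _ σ.2, h2' _ σ.2, ← hw]
    rw [h1, h1', ← hw] at hv
    have h3 : (l - l') • (eb z.1.1 - ea z.1.1) = 0 := by
      have h4 : (l - l') • (eb z.1.1 - ea z.1.1) =
          ((1 - l) • ea z.1.1 + l • eb z.1.1) - ((1 - l') • ea z.1.1 + l' • eb z.1.1) := by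
        module
      rw [h4, hv, sub_self]
    rcases smul_eq_zero.1 h3 with h | h
    · rw [sub_eq_zero.1 h]
    · have h4 : b z.1.1 = a z.1.1 := hinj _ _ _ (hb _) (ha _) (sub_eq_zero.1 h)
      rw [h4, hK.diag _ _ (ha _) l hl _ σ.2, hK.diag _ _ (ha _) l' hl' _ σ.2]
  obtain ⟨G, hG⟩ := ext_lemma π hπ κ hκ hfib
  let G' : (W × C(unitInterval, Fin N → ℝ)) × unitInterval → (Fin N → ℝ) := fun q =>
    G q + (1 - (q.2 : ℝ)) • (e (f q.1.1) - G (q.1, 0)) + (q.2 : ℝ) • (e (g q.1.1) - G (q.1, 1))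
  have hG' : Continuous G' := by
    have h1 : Continuous fun q : (W × C(unitInterval, Fin N → ℝ)) × unitInterval =>
      (q.2 : ℝ) := by fun_prop
    have h2 : Continuous fun q : (W × C(unitInterval, Fin N → ℝ)) × unitInterval =>
      e (f q.1.1) := he.comp (f.continuous.comp (by fun_prop))
    have h3 : Continuous fun q : (W × C(unitInterval, Fin N → ℝ)) × unitInterval =>
      e (g q.1.1) := he.comp (g.continuous.comp (by fun_prop))
    have h4 : Continuous fun q : (W × C(unitInterval, Fin N → ℝ)) × unitInterval =>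
      G (q.1, 0) := G.continuous.comp (by fun_prop)
    have h5 : Continuous fun q : (W × C(unitInterval, Fin N → ℝ)) × unitInterval =>
      G (q.1, 1) := G.continuous.comp (by fun_prop)
    exact (G.continuous.add ((continuous_const.sub h1).smul (h2.sub h4))).add
      (h1.smul (h3.sub h5))
  have hG'0 : ∀ v, G' (v, 0) = e (f v.1) := by
    intro v
    show G (v, 0) + (1 - ((0 : unitInterval) : ℝ)) • (e (f v.1) - G (v, 0)) +
      ((0 : unitInterval) : ℝ) • (e (g v.1) - G (v, 1)) = _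
    simp
  have hG'1 : ∀ v, G' (v, 1) = e (g v.1) := by
    intro v
    show G (v, 1) + (1 - ((1 : unitInterval) : ℝ)) • (e (f v.1) - G (v, 0)) +
      ((1 : unitInterval) : ℝ) • (e (g v.1) - G (v, 1)) = _
    simp
  have hG'π : ∀ z σ, G' (π z, σ) = κ (z, σ) := by
    intro z σ
    have h0 : κ (z, 0) = e (f z.1.1) := congrArg e (hK.left _ _ _ z.2.1 z.2.2 _ z.1.2.2.2.2)
    have h1 : κ (z, 1) = e (g z.1.1) := congrArg e (hK.right _ _ _ z.2.1 z.2.2 _ z.1.2.2.2.2)
    show G (π z, σ) + (1 - (σ : ℝ)) • (e (f z.1.1) - G (π z, 0)) +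
      (σ : ℝ) • (e (g z.1.1) - G (π z, 1)) = _
    rw [hG, hG, hG, h0, h1, sub_self, sub_self, smul_zero, smul_zero, add_zero, add_zero]
  -- the open set
  let O : Set (W × C(unitInterval, Fin N → ℝ)) := {v | ∀ σ, G' (v, σ) ∈ U}
  have hO : IsOpen O := by
    have h1 : Oᶜ = Prod.fst '' {q : (W × C(unitInterval, Fin N → ℝ)) × unitInterval |
        G' q ∈ Uᶜ} := by
      ext v
      constructor
      · intro h
        have h2 : ∃ σ, G' (v, σ) ∉ U := by
          by_contra hcon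
          push Not at hcon
          exact h hcon
        obtain ⟨σ, hσ⟩ := h2
        exact ⟨(v, σ), hσ, rfl⟩
      · rintro ⟨⟨v', σ⟩, h2, rfl⟩ h3
        exact h2 (h3 σ)
    rw [← isClosed_compl_iff, h1]
    exact isClosedMap_fst_of_compactSpace _ (hU.isClosed_compl.preimage hG')
  have hJO : range π ⊆ O := by
    rintro _ ⟨z, rfl⟩ σ
    rw [hG'π]
    exact heU _
  -- the fibres
  have hmem : ∀ (w : W) (l : ℝ), l ∈ Icc (0 : ℝ) 1 →
      (w, (1 - l) • ea w + l • eb w) ∈ range π := by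
    intro w l hl
    exact ⟨⟨(w, a w, b w, ⟨l, hl⟩), ha w, hb w⟩, rfl⟩
  have hJne : ∀ w, ∃ v, (w, v) ∈ range π := fun w => ⟨_, hmem w 0 ⟨le_rfl, zero_le_one⟩⟩
  have hJcv : ∀ w, Convex ℝ {v | (w, v) ∈ range π} := by
    intro w
    have h1 : {v | (w, v) ∈ range π} = segment ℝ (ea w) (eb w) := by
      ext v
      constructor
      · rintro ⟨z, hz⟩
        obtain ⟨l, hl, h1, -⟩ := key z
        have hw : z.1.1 = w := congrArg (fun v : W × C(unitInterval, Fin N → ℝ) => v.1) hz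
        have hv : (π z).2 = v := congrArg (fun v => v.2) hz
        rw [← hv, h1, hw]
        exact ⟨1 - l, l, by linarith [hl.2], hl.1, by ring, rfl⟩
      · rintro ⟨x, y, hx, hy, hxy, rfl⟩
        have h2 := hmem w y ⟨hy, by linarith⟩
        have h3 : 1 - y = x := by linarith
        rw [h3] at h2
        exact h2
    rw [h1]
    exact convex_segment _ _
  obtain ⟨s, hs⟩ := approx_sel (range π) O (isCompact_range hπ) hO hJO hJne hJcv
  have hH : Continuous fun q : unitInterval × W => ρ (G' ((q.2, s q.2), q.1)) := by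
    refine hρ.comp_continuous (hG'.comp ?_) (fun q => hs q.2 q.1)
    have h1 : Continuous fun q : unitInterval × W => s q.2 := s.continuous.comp continuous_snd
    exact (continuous_snd.prodMk h1).prodMk continuous_fst
  exact ⟨{ toFun := fun q => ρ (G' ((q.2, s q.2), q.1))
           continuous_toFun := hH
           map_zero_left := fun w => by
             show ρ (G' ((w, s w), 0)) = f w
             rw [hG'0, hρe]
           map_one_left := fun w => by
             show ρ (G' ((w, s w), 1)) = g w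
             rw [hG'1, hρe] }⟩

end Pool.Agent.L7h89.TM
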